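import Pool.Agent.Y500.PSP.Dmt0
import Pool.Agent.Y727.PSP.Stm

set_option autoImplicit false

namespace Pool.Agent.Y500.PSP

/-- the dense model theorem -/
theorem DMT : Pool.Agent.Y727.PSP.S_DMT := fun ε hε => dmt0 ε hε

end Pool.Agent.Y500.PSP
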