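import Mathlib
import Pool.Agent.H602R3.DHJ.Base

set_option autoImplicit false

open Finset

namespace Pool.Agent.Y500.PSP

open Pool.Agent.H602R3.DHJ (av av_mono av_add av_sub av_mul av_sum av_const)

variable {V : Type} [Fintype V]

/-- the set of functions with small correlation is convex -/
theorem convex_corr (w : V → ℝ) (ε : ℝ) :
    Convex ℝ {χ : V → ℝ | |av (fun a => w a * χ a)| ≤ ε} := by
  intro x hx y hy a b ha hb hab
  simp only [Set.mem_setOf_eq, Pi.add_apply, Pi.smul_apply, smul_eq_mul] at hx hy ⊢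
  have e : av (fun t => w t * (a * x t + b * y t)) =
      a * av (fun t => w t * x t) + b * av (fun t => w t * y t) := by
    rw [← av_mul, ← av_mul, ← av_add]
    congr 1
    funext t
    ring
  rw [e]
  calc |a * av (fun t => w t * x t) + b * av (fun t => w t * y t)|
      ≤ |a * av (fun t => w t * x t)| + |b * av (fun t => w t * y t)| := abs_add_le _ _
    _ = a * |av (fun t => w t * x t)| + b * |av (fun t => w t * y t)| := by
        rw [abs_mul, abs_mul, abs_of_nonneg ha, abs_of_nonneg hb]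
    _ ≤ a * ε + b * ε := by gcongr
    _ = ε := by rw [← add_mul, hab, one_mul]

theorem hull_corr {Φ : Set (V → ℝ)} {w : V → ℝ} {ε : ℝ}
    (h : ∀ φ ∈ Φ, |av (fun a => w a * φ a)| ≤ ε) :
    ∀ φ ∈ convexHull ℝ Φ, |av (fun a => w a * φ a)| ≤ ε := by
  intro φ hφ
  exact convexHull_min (s := Φ) (t := {χ : V → ℝ | |av (fun a => w a * χ a)| ≤ ε})
    (fun χ hχ => h χ hχ) (convex_corr w ε) hφ

omit [Fintype V] in
theorem hull_bound {Φ : Set (V → ℝ)} (h : ∀ φ ∈ Φ, ∀ a, |φ a| ≤ 1) :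
    ∀ φ ∈ convexHull ℝ Φ, ∀ a, |φ a| ≤ 1 := by
  intro φ hφ a
  refine convexHull_min (s := Φ) (t := {χ : V → ℝ | |χ a| ≤ 1}) (fun χ hχ => h χ hχ a) ?_ hφ
  intro x hx y hy s t hs ht hst
  simp only [Set.mem_setOf_eq, Pi.add_apply, Pi.smul_apply, smul_eq_mul] at hx hy ⊢
  calc |s * x a + t * y a| ≤ |s * x a| + |t * y a| := abs_add_le _ _
    _ = s * |x a| + t * |y a| := by rw [abs_mul, abs_mul, abs_of_nonneg hs, abs_of_nonneg ht]
    _ ≤ s * 1 + t * 1 := by gcongr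
    _ = 1 := by rw [mul_one, mul_one, hst]

omit [Fintype V] in
theorem hull_mul {Φ : Set (V → ℝ)} (h : ∀ φ ∈ Φ, ∀ ψ ∈ Φ, φ * ψ ∈ convexHull ℝ Φ) :
    ∀ φ ∈ convexHull ℝ Φ, ∀ ψ ∈ convexHull ℝ Φ, φ * ψ ∈ convexHull ℝ Φ := by
  have h1 : ∀ ψ ∈ Φ, ∀ φ ∈ convexHull ℝ Φ, φ * ψ ∈ convexHull ℝ Φ := by
    intro ψ hψ φ hφ
    refine convexHull_min (s := Φ) (t := {χ : V → ℝ | χ * ψ ∈ convexHull ℝ Φ})
      (fun χ hχ => h χ hχ ψ hψ) ?_ hφ
    intro x hx y hy s t hs ht hst
    simp only [Set.mem_setOf_eq] at hx hy ⊢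
    rw [add_mul, smul_mul_assoc, smul_mul_assoc]
    exact (convex_convexHull ℝ Φ) hx hy hs ht hst
  intro φ hφ ψ hψ
  refine convexHull_min (s := Φ) (t := {χ : V → ℝ | φ * χ ∈ convexHull ℝ Φ})
    (fun χ hχ => h1 χ hχ φ hφ) ?_ hψ
  intro x hx y hy s t hs ht hst
  simp only [Set.mem_setOf_eq] at hx hy ⊢
  rw [mul_add, mul_smul_comm, mul_smul_comm]
  exact (convex_convexHull ℝ Φ) hx hy hs ht hst

omit [Fintype V] in
theorem hull_pow {Φ : Set (V → ℝ)} (h1 : (fun _ => 1) ∈ Φ)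
    (h : ∀ φ ∈ Φ, ∀ ψ ∈ Φ, φ * ψ ∈ convexHull ℝ Φ) (φ : V → ℝ) (hφ : φ ∈ convexHull ℝ Φ) :
    ∀ m : ℕ, φ ^ m ∈ convexHull ℝ Φ := by
  intro m
  induction m with
  | zero =>
      rw [pow_zero]
      exact subset_convexHull ℝ Φ h1
  | succ m ih =>
      rw [pow_succ]
      exact hull_mul h _ ih _ hφ

/-- the minimax step -/
theorem minimax_step [Nonempty V] {Φ : Set (V → ℝ)} {ε : ℝ} {f : V → ℝ}
    (hsym : ∀ φ ∈ Φ, -φ ∈ Φ)
    (hno : ¬ ∃ g : V → ℝ, (∀ a, 0 ≤ g a ∧ g a ≤ 1) ∧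
      ∀ φ ∈ Φ, |av (fun a => (f a - g a) * φ a)| ≤ ε) :
    ∃ φ ∈ convexHull ℝ Φ, ∀ g : V → ℝ, (∀ a, 0 ≤ g a ∧ g a ≤ 1) →
      ε < av (fun a => (f a - g a) * φ a) := by
  classical
  set X : Set (V → ℝ) := Set.Icc 0 1 with hX
  have hXm : ∀ g : V → ℝ, g ∈ X ↔ ∀ a, 0 ≤ g a ∧ g a ≤ 1 := by
    intro g
    rw [hX, Set.mem_Icc, Pi.le_def, Pi.le_def]
    exact ⟨fun h a => ⟨h.1 a, h.2 a⟩, fun h => ⟨fun a => (h a).1, fun a => (h a).2⟩⟩
  have hcont : ∀ φ : V → ℝ, Continuous (fun g : V → ℝ => av (fun a => (f a - g a) * φ a)) := by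
    intro φ
    unfold av
    fun_prop
  have hcont2 : ∀ g : V → ℝ, Continuous (fun φ : V → ℝ => av (fun a => (f a - g a) * φ a)) := by
    intro φ
    unfold av
    fun_prop
  have hX2 : IsCompact X := isCompact_Icc
  -- for each g some φ
  have h1 : ∀ g ∈ X, ∃ φ ∈ Φ, ε < av (fun a => (f a - g a) * φ a) := by
    intro g hg
    by_contra hcon
    push Not at hcon
    apply hno
    refine ⟨g, (hXm g).1 hg, fun φ hφ => abs_le.2 ⟨?_, hcon φ hφ⟩⟩
    have h2 := hcon (-φ) (hsym φ hφ)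
    have e : av (fun a => (f a - g a) * (-φ) a) = (-1) * av (fun a => (f a - g a) * φ a) := by
      rw [← av_mul]
      congr 1
      funext a
      simp
    rw [e] at h2
    linarith
  -- compactness
  obtain ⟨T, hT⟩ := hX2.elim_finite_subcover (fun φ : Φ => {g : V → ℝ |
      ε < av (fun a => (f a - g a) * (φ : V → ℝ) a)})
    (fun φ => isOpen_lt continuous_const (hcont φ))
    (fun g hg => by
      obtain ⟨φ, hφ, h2⟩ := h1 g hg
      exact Set.mem_iUnion.2 ⟨⟨φ, hφ⟩, h2⟩)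
  have hne : X.Nonempty := ⟨0, (hXm 0).2 (fun a => ⟨le_rfl, zero_le_one⟩)⟩
  have haff : ∀ φ : V → ℝ, ∀ x y : V → ℝ, ∀ s t : ℝ, s + t = 1 →
      av (fun a => (f a - (s • x + t • y) a) * φ a) =
        s * av (fun a => (f a - x a) * φ a) + t * av (fun a => (f a - y a) * φ a) := by
    intro φ x y s t hst
    rw [← av_mul, ← av_mul, ← av_add]
    congr 1
    funext a
    simp only [Pi.add_apply, Pi.smul_apply, smul_eq_mul]
    have : f a = (s + t) * f a := by rw [hst, one_mul]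
    calc (f a - (s * x a + t * y a)) * φ a = ((s + t) * f a - (s * x a + t * y a)) * φ a := by
          rw [← this]
      _ = _ := by ring
  have hlin : ∀ g : V → ℝ, ∀ x y : V → ℝ, ∀ s t : ℝ,
      av (fun a => (f a - g a) * (s • x + t • y) a) =
        s * av (fun a => (f a - g a) * x a) + t * av (fun a => (f a - g a) * y a) := by
    intro φ x y s t
    rw [← av_mul, ← av_mul, ← av_add]
    congr 1
    funext a
    simp only [Pi.add_apply, Pi.smul_apply, smul_eq_mul]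
    ring
  obtain ⟨φ0, hφ0, h3⟩ := Sion.exists_lt_iInf_of_lt_iInf_of_finite (E := V → ℝ) (F := V → ℝ)
    (β := ℝ) (X := X) (Y := convexHull ℝ Φ) (f := fun g φ => av (fun a => (f a - g a) * φ a))
    hne hX2 (fun φ _ => (hcont φ).lowerSemicontinuous.lowerSemicontinuousOn _)
    (fun φ _ => by
      apply ConvexOn.quasiconvexOn
      refine ⟨convex_Icc 0 1, ?_⟩
      intro x _ y _ s t _ _ hst
      simp only [smul_eq_mul]
      exact (haff φ x y s t hst).le)
    (convex_convexHull ℝ Φ) (fun g _ => (hcont2 g).upperSemicontinuous.upperSemicontinuousOn _)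
    (fun g _ => by
      apply ConcaveOn.quasiconcaveOn
      refine ⟨convex_convexHull ℝ Φ, ?_⟩
      intro x _ y _ s t _ _ _
      simp only [smul_eq_mul]
      exact (hlin g x y s t).ge)
    (convex_Icc 0 1) (s := (fun φ : Φ => (φ : V → ℝ)) '' (T : Set Φ))
    (T.finite_toSet.image _)
    (by
      rintro _ ⟨φ, _, rfl⟩
      exact subset_convexHull ℝ Φ φ.2)
    (t := ε)
    (by
      intro g hg
      obtain ⟨φ, hφ⟩ := Set.mem_iUnion.1 (hT hg)
      obtain ⟨hφ1, hφ2⟩ := Set.mem_iUnion.1 hφ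
      exact ⟨φ, ⟨φ, hφ1, rfl⟩, hφ2⟩)
  exact ⟨φ0, hφ0, fun g hg => h3 g ((hXm g).2 hg)⟩

theorem dmt0 (ε : ℝ) (hε : 0 < ε) : ∃ ε' : ℝ, 0 < ε' ∧
    ∀ (V : Type) [Fintype V] [Nonempty V]
      (Φ : Set (V → ℝ)), (∀ φ ∈ Φ, ∀ a, |φ a| ≤ 1) → (fun _ => 1) ∈ Φ → (∀ φ ∈ Φ, -φ ∈ Φ) →
      (∀ φ ∈ Φ, ∀ ψ ∈ Φ, φ * ψ ∈ convexHull ℝ Φ) →
      ∀ ν f : V → ℝ, (∀ a, 0 ≤ f a ∧ f a ≤ ν a) →
      (∀ φ ∈ Φ, |av (fun a => (ν a - 1) * φ a)| ≤ ε') →
      ∃ g : V → ℝ, (∀ a, 0 ≤ g a ∧ g a ≤ 1) ∧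
        ∀ φ ∈ Φ, |av (fun a => (f a - g a) * φ a)| ≤ ε := by
  obtain ⟨p, hp⟩ := exists_polynomial_near_of_continuousOn (-1) 1 (fun t => max t 0)
    (by fun_prop) (ε / 8) (by positivity)
  set R : ℝ := ∑ m ∈ p.support, |p.coeff m| with hR
  have hR0 : 0 ≤ R := Finset.sum_nonneg fun _ _ => abs_nonneg _
  refine ⟨min 1 (ε / (4 * (R + 1))), by positivity, ?_⟩
  intro V _ _ Φ hb h1 hsym hmul ν f hf hcor
  by_contra hno
  obtain ⟨φ, hφ, hg⟩ := minimax_step hsym hno
  set ε' := min 1 (ε / (4 * (R + 1))) with hε'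
  have hφb := hull_bound hb φ hφ
  have hν : ∀ a, 0 ≤ ν a := fun a => (hf a).1.trans (hf a).2
  have hε'1 : ε' ≤ 1 := min_le_left _ _
  have hε'2 : R * ε' ≤ ε / 4 := by
    have h2 : ε' ≤ ε / (4 * (R + 1)) := min_le_right _ _
    calc R * ε' ≤ (R + 1) * (ε / (4 * (R + 1))) := by
          have : 0 ≤ ε' := by positivity
          gcongr
          linarith
      _ = ε / 4 := by field_simp
  -- (1) ε < av ((ν - 1) φ₊)
  have s1 : ε < av (fun a => (ν a - 1) * max (φ a) 0) := by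
    have h2 := hg (fun a => if 0 < φ a then 1 else 0) (fun a => by split_ifs <;> norm_num)
    refine h2.trans_le (av_mono fun a => ?_)
    have h3 := hf a
    by_cases hpos : 0 < φ a
    · rw [if_pos hpos, max_eq_left hpos.le]
      exact mul_le_mul_of_nonneg_right (by linarith [h3.2]) hpos.le
    · rw [if_neg hpos, max_eq_right (not_lt.1 hpos), mul_zero, sub_zero]
      exact mul_nonpos_of_nonneg_of_nonpos h3.1 (not_lt.1 hpos)
  -- (2) polynomial part
  have s2 : av (fun a => (ν a - 1) * p.eval (φ a)) ≤ R * ε' := by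
    have e : av (fun a => (ν a - 1) * p.eval (φ a)) =
        ∑ m ∈ p.support, p.coeff m * av (fun a => (ν a - 1) * (φ ^ m) a) := by
      simp_rw [← av_mul]
      rw [← av_sum]
      congr 1
      funext a
      rw [Polynomial.eval_eq_sum, Polynomial.sum_def, mul_sum]
      refine sum_congr rfl fun m _ => ?_
      rw [Pi.pow_apply]
      ring
    rw [e, hR, sum_mul]
    refine sum_le_sum fun m _ => ?_
    refine (le_abs_self _).trans ?_
    rw [abs_mul]
    exact mul_le_mul_of_nonneg_left (hull_corr hcor _ (hull_pow h1 hmul φ hφ m)) (abs_nonneg _)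
  -- (3) the error
  have s3 : av (fun a => (ν a - 1) * (max (φ a) 0 - p.eval (φ a))) ≤ 3 * ε / 8 := by
    have h2 : av ν ≤ 2 := by
      have h3 := hcor _ h1
      have h4 : av (fun a => (ν a - 1) * 1) = av ν - 1 := by
        have : (fun a => (ν a - 1) * 1) = fun a => ν a - (fun _ => (1 : ℝ)) a := by
          funext a
          simp
        rw [this, av_sub, av_const]
      rw [h4] at h3
      have := (abs_le.1 h3).2
      linarith
    calc av (fun a => (ν a - 1) * (max (φ a) 0 - p.eval (φ a)))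
        ≤ av (fun a => (ε / 8) * (ν a + 1)) := av_mono fun a => by
          have h5 : |max (φ a) 0 - p.eval (φ a)| ≤ ε / 8 := by
            rw [abs_sub_comm]
            exact (hp (φ a) ⟨(abs_le.1 (hφb a)).1, (abs_le.1 (hφb a)).2⟩).le
          have h6 : |ν a - 1| ≤ ν a + 1 := by
            rw [abs_le]
            constructor <;> linarith [hν a]
          calc (ν a - 1) * (max (φ a) 0 - p.eval (φ a))
              ≤ |(ν a - 1) * (max (φ a) 0 - p.eval (φ a))| := le_abs_self _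
            _ = |ν a - 1| * |max (φ a) 0 - p.eval (φ a)| := abs_mul _ _
            _ ≤ (ν a + 1) * (ε / 8) := by
                have := hν a
                gcongr
            _ = _ := by ring
      _ = (ε / 8) * (av ν + 1) := by
          rw [av_mul]
          congr 1
          have : (fun a => ν a + 1) = fun a => ν a + (fun _ => (1 : ℝ)) a := rfl
          rw [this, av_add, av_const]
      _ ≤ (ε / 8) * (2 + 1) := by gcongr
      _ = 3 * ε / 8 := by ring
  have s4 : av (fun a => (ν a - 1) * max (φ a) 0) = av (fun a => (ν a - 1) * p.eval (φ a)) +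
      av (fun a => (ν a - 1) * (max (φ a) 0 - p.eval (φ a))) := by
    rw [← av_add]
    congr 1
    funext a
    ring
  linarith

end Pool.Agent.Y500.PSP
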